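import Pool.Agent.R31.NearMain

/-!
# MP_3237b1_co, Q1: every outerplanar graph has a near-interval coloring

Outerplanar graphs are used in their standard chord form: the vertices can be placed at distinct
points of a circle (cut open to a line) so that no two edges, drawn as chords, cross.
-/

set_option linter.all false

namespace Pool.Agent.Results.MP_3237b1_co.Outerplanar

/-- `G` is outerplanar: the vertices can be placed at distinct positions of a circle (cut open
to a line) in such a way that no two edges, drawn as chords, cross. -/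
def Outerplanar {V : Type*} (G : SimpleGraph V) : Prop :=
  ∃ pos : V → ℕ, Function.Injective pos ∧
    ∀ a b c d : V, G.Adj a b → G.Adj c d →
      ¬ (pos a < pos c ∧ pos c < pos b ∧ pos b < pos d)

/-- A set of integers of the form `{a, a+1, ..., b}` with `a ≤ b`. -/
def IsInterval (S : Set ℤ) : Prop := ∃ a b : ℤ, a ≤ b ∧ S = Set.Icc a b

/-- `S ∪ {m}` is an interval for some integer `m` outside `S` lying strictly between two
elements of `S`. -/
def IsNearInterval (S : Set ℤ) : Prop :=
  ∃ m : ℤ, m ∉ S ∧ IsInterval (S ∪ {m}) ∧ (∃ a ∈ S, a < m) ∧ ∃ b ∈ S, m < b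

/-- The colors seen by the vertex `v`. -/
def colorsAt {V : Type*} (G : SimpleGraph V) (c : Sym2 V → ℤ) (v : V) : Set ℤ :=
  {t | ∃ w, G.Adj v w ∧ c s(v, w) = t}

/-- Near-interval colorings: proper edge colorings by integers such that every vertex with at
least one incident edge sees an interval or a near-interval of colors. -/
def IsNearIntervalColoring {V : Type*} (G : SimpleGraph V) (c : Sym2 V → ℤ) : Prop :=
  (∀ v a b, G.Adj v a → G.Adj v b → a ≠ b → c s(v, a) ≠ c s(v, b)) ∧
  ∀ v, (∃ w, G.Adj v w) → IsInterval (colorsAt G c v) ∨ IsNearInterval (colorsAt G c v)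

theorem interval_of_NI {S : Set ℤ} (hne : S.Nonempty) (h : R31.NI.NI (fun t => t ∈ S)) :
    IsInterval S ∨ IsNearInterval S := by
  obtain ⟨m, M, h, H⟩ := h
  have H : ∀ t, t ∈ S ↔ (m ≤ t ∧ t ≤ M ∧ t ≠ h) := H
  obtain ⟨s, hs⟩ := hne
  have hs' := (H s).1 hs
  by_cases h1 : m < h ∧ h < M
  · right
    refine ⟨h, fun hh => ((H h).1 hh).2.2 rfl, ⟨m, M, by omega, ?_⟩,
      ⟨m, (H m).2 ⟨by omega, by omega, by omega⟩, h1.1⟩,
      ⟨M, (H M).2 ⟨by omega, by omega, by omega⟩, h1.2⟩⟩
    ext t
    simp only [Set.mem_union, Set.mem_singleton_iff, Set.mem_Icc, H]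
    omega
  · left
    by_cases h2 : h = m
    · refine ⟨m + 1, M, by omega, ?_⟩
      ext t
      simp only [Set.mem_Icc, H]
      omega
    · by_cases h3 : h = M
      · refine ⟨m, M - 1, by omega, ?_⟩
        ext t
        simp only [Set.mem_Icc, H]
        omega
      · refine ⟨m, M, by omega, ?_⟩
        ext t
        simp only [Set.mem_Icc, H]
        omega

theorem exists_coloring {V : Type*} [Finite V] (G : SimpleGraph V) (h : Outerplanar G) :
    ∃ c : Sym2 V → ℤ, IsNearIntervalColoring G c := by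
  obtain ⟨pos, hinj, hnc⟩ := h
  set E : ℕ → ℕ → Prop := fun a b => ∃ u v, pos u + 1 = a ∧ pos v + 1 = b ∧ G.Adj u v with hE
  have Es : ∀ a b, E a b → E b a := by
    rintro a b ⟨u, v, h1, h2, h3⟩
    exact ⟨v, u, h2, h1, h3.symm⟩
  have Ei : ∀ a, ¬ E a a := by
    rintro a ⟨u, v, h1, h2, h3⟩
    exact h3.ne (hinj (by omega))
  have hnc' : ∀ a b c d, E a b → E c d → a < c → c < b → b < d → False := by
    rintro a b c d ⟨u, v, h1, h2, h3⟩ ⟨u', v', h1', h2', h3'⟩ h4 h5 h6
    exact hnc u v u' v' h3 h3' ⟨by omega, by omega, by omega⟩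
  obtain ⟨N, hN⟩ := (Set.finite_range pos).bddAbove
  have hN' : ∀ v, pos v ≤ N := fun v => hN ⟨v, rfl⟩
  have hD : R31.NI.D E 0 0 (N + 2) = 0 := by
    classical
    unfold R31.NI.D
    rw [Finset.card_eq_zero, Finset.filter_eq_empty_iff]
    rintro u - ⟨a, b, h1, h2, h3⟩
    omega
  obtain ⟨f, g⟩ := R31.NI.main Es Ei hnc' (N + 2) 0 (N + 2) (by omega) (by omega) 0
    R31.NI.Pat.U R31.NI.Pat.U (Or.inl hD)
  have key : ∀ v w, G.Adj v w → E (pos v + 1) (pos w + 1) := fun v w h => ⟨v, w, rfl, rfl, h⟩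
  refine ⟨Sym2.lift ⟨fun a b => f (pos a + 1) (pos b + 1), fun a b => g.sym _ _⟩, ?_, ?_⟩
  · intro v a b ha hb hab hc
    simp only [Sym2.lift_mk] at hc
    have h1 := hN' v
    have h2 := hN' a
    have h3 := hN' b
    have := g.inj (pos v + 1) (by omega) (by omega) (pos a + 1) (pos b + 1) (by omega) (by omega)
      (by omega) (by omega) (key _ _ ha) (key _ _ hb) hc
    exact hab (hinj (by omega))
  · rintro v ⟨w, hw⟩
    refine interval_of_NI ⟨_, w, hw, rfl⟩ ?_
    have h1 := hN' v
    refine (g.near (pos v + 1) (by omega) (by omega)).congr fun t => ?_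
    constructor
    · rintro ⟨u, h2, h3⟩
      have h4 := hN' u
      exact ⟨pos u + 1, by omega, by omega, key _ _ h2, h3⟩
    · rintro ⟨u, h2, h3, ⟨a, b, h4, h5, h6⟩, h7⟩
      have : a = v := hinj (by omega)
      subst this
      subst h5
      exact ⟨b, h6, h7⟩

/-- **Q1.** Every (finite simple) outerplanar graph admits a near-interval coloring. -/
theorem result : ∀ (V : Type) [Finite V] (G : SimpleGraph V), Outerplanar G →
    ∃ c : Sym2 V → ℤ, IsNearIntervalColoring G c :=
  fun V _ G h => exists_coloring G h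

end Pool.Agent.Results.MP_3237b1_co.Outerplanar
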